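import Pool.Agent.K9h26.GJ.Num

/-!
# The Schanuel-type conjecture for the Gamma function at values of exponential polynomials

Definitions (in `Pool.Agent.K9h26.GE.Cls` and `Pool.Agent.K9h26.GJ.Cls`):

* `XP`: the exponential polynomials `∑ p_ω(s) exp (ω s)`, finite sums with complex frequencies `ω`
  and complex polynomials `p_ω`;
* `QP`: the entire functions `g` such that `q g` is an exponential polynomial for some nonzero
  polynomial `q`; all exponential polynomials, but also `sin s / s`;
* `QX Ω x f`: on `Ω` the function `f` is `g(x)` with a nonconstant function `g` in `QP`;
* `EX Ω x f`: on `Ω` the function `f` is a quotient `P(x) / Q(x)` of exponential polynomials of `x`;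
* `exField F Ω x 𝓜 t`: the field generated over `F` by the values at `t` of the functions of the
  second kind which belong to the family `𝓜`.

Let `F` be a countable field of complex numbers, `Ω` a connected open set, `x` any nonconstant
holomorphic function on `Ω`, and `𝓜` any countable family of meromorphic functions on `Ω`. For `t`
in `Ω` outside one countable set and all `f_1, …, f_n` in `𝓜` each of which has a pole in `Ω` or is
a nonconstant function of the class `QP` of the variable `x`, such that the numbers `z_i = f_i(t)`
satisfy condition (H) of the conjecture: the numbers `Γ(z_1), …, Γ(z_n)` are algebraically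
independent over the field `exField F Ω x 𝓜 t`, the transcendence degree of `F(z, Γ(z))` is at least
`n` plus that of the field generated by those `z_i` for which `f_i` is a quotient of exponential
polynomials of `x`, and it is at least `n + 1`, one more than the conjecture asks for.

Examples: `Ω = ℂ` and `x = t`; the slit plane and `x = log t`, the functions without poles are then
the sums of products of polynomials in `log t` and of powers `t ^ ω`, `ω` complex; `x = 1 / t`;
`x = exp t`.

The functions without poles were out of reach of the earlier results for curves (`MeromorphicCurves`: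
at most three of them).

Proof. The main step is functional (`Pool.Agent.K9h26.GH.funcQ`): for nonconstant `f_i` in `QP`
such that no `f_i` is in `ℚ f_j + ℚ` (`j ≠ i`), the functions `1/Γ(f_1), …, 1/Γ(f_n)` are
algebraically independent over `QP`. Let `ω` be a frequency of maximal absolute value of all the
`f_i` and `α` the maximal degree of a coefficient of `ω`. In the direction of the conjugate of `ω`
one introduces the coordinate `s` in which `t ^ α exp (ω t)` becomes `exp s` up to a factor
`1 + o(1/s)`. In horizontal strips the functions with the frequency `ω` and degree `α` are then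
`a exp s + (v + o(1)) exp s / s` with `a ≠ 0`, and for the others the same holds with `a = 0`, so that
`1/Γ(f_i)` is `exp (-v exp s)` up to a factor of smaller growth. The proof of the theorem on poles
of the same order in the starting library (`Pool.Agent.W175.GF.tg`: Stirling's formula, separation
of exponentials by a Carlson type lemma, crossing of the rays of poles) is carried over from the
punctured disc to its logarithmic covering, with the additional terms `v exp s / s`; this eliminates
the functions with `a ≠ 0`. What remains in the end are polynomials; for them the starting theorem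
is used with exponential polynomials as coefficients. A relation on `Ω` between functions of `x` is
a relation between entire functions, by the open mapping theorem.
-/

set_option autoImplicit false

open Pool.Agent.K9h26.GE Pool.Agent.K9h26.GJ

namespace Pool.Agent.Results.MP_26ad15_nt.ExponentialCurves

theorem result (F : Type) [Field F] [Algebra F ℂ] [Countable F] (Ω : Set ℂ) (hΩ : IsOpen Ω)
    (hc : IsPreconnected Ω) (x : ℂ → ℂ) (hx : DifferentiableOn ℂ x Ω)
    (hxn : ∀ v : ℂ, ∃ s ∈ Ω, x s ≠ v) (𝓜 : Set (ℂ → ℂ)) (hcount : 𝓜.Countable)
    (h𝓜 : ∀ g ∈ 𝓜, MeromorphicOn g Ω) :
    ∃ S : Set ℂ, S.Countable ∧ ∀ t ∈ Ω, t ∉ S → ∀ (n : ℕ) (f : Fin n → ℂ → ℂ), (∀ i, f i ∈ 𝓜) →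
      (∀ i, (∃ s ∈ Ω, meromorphicOrderAt (f i) s < 0) ∨ QX Ω x (f i)) →
      (∀ i j, i ≠ j → ∀ a b : ℚ, f i t ≠ a * f j t + b) →
      AlgebraicIndependent (exField F Ω x 𝓜 t) (fun i => Complex.Gamma (f i t)) ∧
      (n : Cardinal) + Algebra.trdeg F (IntermediateField.adjoin F
          (Set.range fun i : {i // EX Ω x (f i)} => f i t)) ≤
        Algebra.trdeg F (IntermediateField.adjoin F
          (Set.range (fun i => f i t) ∪ Set.range fun i => Complex.Gamma (f i t))) ∧
      (1 ≤ n → ((n + 1 : ℕ) : Cardinal) ≤ Algebra.trdeg F (IntermediateField.adjoin F
          (Set.range (fun i => f i t) ∪ Set.range fun i => Complex.Gamma (f i t)))) :=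
  numX ⟨hΩ, hc, hx, hxn⟩ hcount h𝓜

end Pool.Agent.Results.MP_26ad15_nt.ExponentialCurves
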