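import Pool.Agent.K9h73.EX.Full4
import Pool.Agent.K9h73.EX.Crit

/-!
# All algebraic relations between values of the Gamma function and exponentials, algebraic arguments

**The condition on the arguments.**  Let `f_1, …, f_n` be functions on a set `Ω`.  The number
`DD Ω f g` is `1` (`-1`) if `f - k` is a positive (negative) rational multiple of `g` on `Ω` for some
integer `k`, and `0` if there is no such integer `k`.  `Ind Ω f` says that for every nonzero integral
vector `a` there are an index `j` and an integer `l` with `∑ a_i DD(f_i, f_j - l) ≠ 0`; this is the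
linear independence of the divisors (`f_i` is an integer), with the signs which come from the
reflection formula.  It holds under condition (H) of the problem (`f_i ∉ ℚ f_j + ℚ` for `i ≠ j`,
`f_i ∉ ℚ`), and more generally if no `f_i - k` is a rational multiple of an `f_j - l`, `i ≠ j`, `k`,
`l` integers (theorem `criterion` below).  For instance it holds for `z, z + 1/N, …, z + (N-1)/N` if
`z` is not rational.

**The theorem.**  Let `y_1, …, y_n` be nonconstant algebraic functions on a connected nonempty open
set `Ω` of `ℂ ^ d`, and let `R` be the ring of the functions `∑ c_s e^{w_s}` (finite sums) with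
algebraic functions `c_s`, `w_s` on `Ω`.  The following are equivalent:
(a) `Ind Ω y`;
(b) the functions `1/Γ(y_1), …, 1/Γ(y_n)` are algebraically independent over `R`;
(c) they are multiplicatively independent modulo the nonzero elements of `R`.
In general the transcendence degree over `R` of the functions `Γ(y_i)`, that is, the size of the
largest algebraically independent subfamily, is the rank of their divisors.

If (a) is not true, the relation which contradicts (c) is found with the functional equations of `Γ`
(translation, reflection, multiplication).  So all the algebraic relations between values of `Γ` and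
of `exp` at algebraic functions come from these functional equations.  The functions `e^{w_j}` of
algebraic functions `w_j` belong to `R`; so (b) and the theorem of Ax on exponentials give the algebraic independence over `ℂ(t_1, …, t_d)` of the
functions `Γ(y_i)`, `e^{w_j}` together, if no nontrivial integral combination of the `w_j` is
constant.

Idea of the proof of (b) from (a).  By continuation to a place where some of the functions have a
pole, and induction on the order of the poles, one comes to sums of products of powers of the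
`1/Γ(y_i)` whose coefficients are exponential polynomials in `s^{-m}` with slowly growing
coefficients, all the `y_i` with poles of order `m`.  The starting library treats such sums under
condition (H): comparison of the asymptotic expansions on both sides of the rays of the zeros of
`1/Γ(y_i)` leads to an equality of products of functions `(1 - exp(2πi y_i))^{k_i}`.  Here the
orders of zeros of these products are compared at a point where exactly the `y_i` with
`DD(y_i, y_j - l) ≠ 0` are integers; this needs only `Ind`.  Then the exponentials are separated by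
their growth in half planes, all exponents being split into polar part and holomorphic part at the
place.

Idea of the proof of (a) from (c).  If the divisors are dependent, one may suppose that all the
arguments with `a_i ≠ 0` are in one class `ℚ f + ℚ`; with the translations and the multiplication
formula (proved here with the theorem of Bohr and Mollerup) the product of the `Γ(y_i)^{a_i}` is
written as a product of powers of the `Γ(u + r)`, `r` in `(1/M)ℤ/ℤ`, `u` or `-u` a multiple of `f`,
modulo exponential polynomials; the exponents are sums of `a_i DD(y_i, ·)` after the reflection.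
-/

set_option autoImplicit false

namespace Pool.Agent.Results.MP_26ad15_nt.GammaAndExponential

open Complex
open Pool.Agent.K9h73.EX (DD Ind)

/-- `f` is an algebraic function on the open set `Ω` of `ℂ ^ d`: it is analytic and satisfies a
nontrivial polynomial equation over `ℂ[t_1, …, t_d]`. -/
def AlgebraicOn {d : ℕ} (Ω : Set (Fin d → ℂ)) (f : (Fin d → ℂ) → ℂ) : Prop :=
  AnalyticOnNhd ℂ f Ω ∧ ∃ Q : Polynomial (MvPolynomial (Fin d) ℂ), Q ≠ 0 ∧
    ∀ t ∈ Ω, (Q.map (MvPolynomial.eval t)).eval (f t) = 0

/-- `E` belongs to the ring `R` of finite sums `∑ c_s e^{w_s}` with algebraic functions `c_s` and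
`w_s` on `Ω`. -/
def ExpSum {d : ℕ} (Ω : Set (Fin d → ℂ)) (E : (Fin d → ℂ) → ℂ) : Prop :=
  ∃ (S : Type) (_ : Fintype S) (c w : S → (Fin d → ℂ) → ℂ), (∀ s, AlgebraicOn Ω (c s)) ∧
    (∀ s, AlgebraicOn Ω (w s)) ∧ ∀ t ∈ Ω, E t = ∑ s, c s t * exp (w s t)

/-- Condition (b): the functions `1/Γ(y_i)` are algebraically independent over `R`. -/
def AlgIndep {d : ℕ} {ι : Type} [Fintype ι] (Ω : Set (Fin d → ℂ)) (y : ι → (Fin d → ℂ) → ℂ) :
    Prop :=
  ∀ (N : Finset (ι → ℕ)) (E : (ι → ℕ) → (Fin d → ℂ) → ℂ), (∀ k ∈ N, ExpSum Ω (E k)) →
    (∀ t ∈ Ω, ∑ k ∈ N, E k t * ∏ i, (Gamma (y i t))⁻¹ ^ k i = 0) → ∀ k ∈ N, ∀ t ∈ Ω, E k t = 0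

/-- Condition (c): the functions `1/Γ(y_i)` are multiplicatively independent modulo nonzero elements
of `R`. -/
def MulIndep {d n : ℕ} (Ω : Set (Fin d → ℂ)) (y : Fin n → (Fin d → ℂ) → ℂ) : Prop :=
  ∀ a : Fin n → ℤ, a ≠ 0 → ∀ E E' : (Fin d → ℂ) → ℂ, ExpSum Ω E → ExpSum Ω E' →
    (∀ t ∈ Ω, E t * ∏ i, (Gamma (y i t))⁻¹ ^ (a i).toNat =
      E' t * ∏ i, (Gamma (y i t))⁻¹ ^ (-a i).toNat) → ∀ t ∈ Ω, E t = 0 ∧ E' t = 0

/-- the divisor of `y_i`, with its values at the functions `y_j - l` -/
noncomputable def divisor {d n : ℕ} (Ω : Set (Fin d → ℂ)) (y : Fin n → (Fin d → ℂ) → ℂ) (i : Fin n) :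
    Fin n × ℤ → ℚ := fun jl => (DD Ω (y i) (fun t => y jl.1 t - jl.2) : ℚ)

/-- the rank of the divisors of the `y_i` -/
noncomputable def divisorRank {d n : ℕ} (Ω : Set (Fin d → ℂ)) (y : Fin n → (Fin d → ℂ) → ℂ) : ℕ :=
  Module.finrank ℚ (Submodule.span ℚ (Set.range (divisor Ω y)))

/-- Condition (H), in a weaker form, implies (a). -/
theorem criterion (X ι : Type) [Fintype ι] (Ω : Set X) (f : ι → X → ℂ)
    (h1 : ∀ i, ∀ q : ℚ, ¬ ∀ t ∈ Ω, f i t = q)
    (h2 : ∀ i j, i ≠ j → ∀ (k l : ℤ) (p : ℚ), ¬ ∀ t ∈ Ω, f i t - k = p * (f j t - l)) : Ind Ω f :=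
  Pool.Agent.K9h73.EX.ind_of_pairs h1 h2

theorem result : ∀ (d n : ℕ) (Ω : Set (Fin d → ℂ)) (y : Fin n → (Fin d → ℂ) → ℂ),
    IsOpen Ω → IsPreconnected Ω → Ω.Nonempty → (∀ i, AlgebraicOn Ω (y i)) →
    (∀ i, ∀ v : ℂ, ¬ ∀ t ∈ Ω, y i t = v) →
      (Ind Ω y ↔ AlgIndep Ω y) ∧ (Ind Ω y ↔ MulIndep Ω y) ∧
      (∀ A : Finset (Fin n), AlgIndep Ω (fun i : A => y i) → A.card ≤ divisorRank Ω y) ∧
      ∃ A : Finset (Fin n), A.card = divisorRank Ω y ∧ AlgIndep Ω (fun i : A => y i) := by
  intro d n Ω y h1 h2 h3 h4 h5
  have h6 := Pool.Agent.K9h73.EX.equiv y h1 h2 h3 h4 h5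
  have h7 := Pool.Agent.K9h73.EX.rank_thm y h1 h2 h3 h4 h5
  exact ⟨h6.1, h6.2, h7.1, h7.2⟩

end Pool.Agent.Results.MP_26ad15_nt.GammaAndExponential
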