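import Pool.Agent.K9h73.EX.Num2

/-!
# Values of the Gamma function and of the exponential function at almost all points

Let `F` be a countable field of complex numbers.  All points `x` of `ℂ ^ n` with
`tr.deg_F F(x) ≤ m + 1`, outside a union of countably many analytic images of open subsets of
`ℂ ^ m`, have the following property.  Let `A` and `B` be sets of indices such that the numbers
`x_i`, `i ∈ A`, are transcendental over `F` and satisfy `Ind`, and the numbers `x_j`, `j ∈ B`, are
linearly independent over `ℤ` modulo numbers algebraic over `F`.  Then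
`tr.deg_F F(x, Γ(x_i) (i ∈ A), e^{x_j} (j ∈ B)) ≥ |A| + |B| + m + 1`.

Here `Ind` is the linear independence of divisors of `GammaAndExponential`: `DD {x} f g` is `1`
(`-1`) if the number `f(x) - k` is a positive (negative) rational multiple of `g(x)` for some integer
`k`, and `0` if there is no such `k`, and for every nonzero integral vector `a` there are an index
`j` and an integer `l` with `∑ a_i DD(x_i, x_j - l) ≠ 0`.  Condition (H) of the problem implies it.

The bound is sharp, and it says that outside the small set the numbers `Γ(x_i)` and `e^{x_j}` are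
algebraically independent over `F(x)`.  For the proof, if the property does not hold, `x` lies on one
of countably many pieces of algebraic sets over `F`, of dimension at most `m + 1`, parametrized by
algebraic functions, on which an algebraic relation between these values holds; by the theorem on
functions the relation does not hold identically on the piece.
-/

set_option autoImplicit false

namespace Pool.Agent.Results.MP_26ad15_nt.GammaExpTuples

open Complex
open Pool.Agent.K9h73.EX (DD Ind)

/-- The hypotheses on the point `x` and the index sets `A`, `B`. -/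
def Admissible (F : Type) [Field F] [Algebra F ℂ] {n : ℕ} (A B : Finset (Fin n)) (x : Fin n → ℂ) :
    Prop :=
  (∀ i ∈ A, ¬ IsAlgebraic F (x i)) ∧
  Ind {x} (fun (i : ↥A) (z : Fin n → ℂ) => z i) ∧
  (∀ a : Fin n → ℤ, (∃ j ∈ B, a j ≠ 0) → ¬ IsAlgebraic F (∑ j ∈ B, (a j : ℂ) * x j))

/-- The field `F(x_1, …, x_n, Γ(x_i) (i ∈ A), e^{x_j} (j ∈ B))`. -/
noncomputable def valueField (F : Type) [Field F] [Algebra F ℂ] {n : ℕ} (A B : Finset (Fin n))
    (x : Fin n → ℂ) : IntermediateField F ℂ :=
  IntermediateField.adjoin F
    (Set.range x ∪ ((fun i => Gamma (x i)) '' A ∪ (fun j => exp (x j)) '' B))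

theorem result : ∀ (F : Type) [Field F] [Algebra F ℂ] [Countable F] (n m : ℕ),
    ∃ (Φ : ℕ → (Fin m → ℂ) → (Fin n → ℂ)) (U : ℕ → Set (Fin m → ℂ)),
      (∀ k, IsOpen (U k)) ∧ (∀ k, AnalyticOnNhd ℂ (Φ k) (U k)) ∧
      ∀ x : Fin n → ℂ, (∀ k, x ∉ Φ k '' U k) →
        Algebra.trdeg F (IntermediateField.adjoin F (Set.range x)) ≤ ((m + 1 : ℕ) : Cardinal) →
        ∀ A B : Finset (Fin n), Admissible F A B x →
          ((A.card + B.card + (m + 1) : ℕ) : Cardinal) ≤ Algebra.trdeg F (valueField F A B x) := by
  intro F _ _ _ n m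
  obtain ⟨Φ, U, h1, h2, h3⟩ := Pool.Agent.TH814.GD.thin_union
    (fun AB : Finset (Fin n) × Finset (Fin n) =>
      Pool.Agent.K9h73.EX.main_ge2 F n m AB.1 AB.2)
  refine ⟨Φ, U, h1, h2, ?_⟩
  rintro x hx htr A B ⟨h4, h5, h6⟩
  by_contra hcon
  have h7 := h3 (Set.mem_iUnion.2 ⟨(A, B), htr, h4, h5, h6, not_le.1 hcon⟩)
  obtain ⟨k, hk⟩ := Set.mem_iUnion.1 h7
  exact hx k hk

end Pool.Agent.Results.MP_26ad15_nt.GammaExpTuples
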