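import Pool.Agent.K9h76.GM.Main

/-!
# The Schanuel-type conjecture for the Gamma function on meromorphic curves

Let `Ω` be a connected open set of complex numbers, `F` a countable field of complex numbers and
`𝓜` ANY countable family of meromorphic functions on `Ω`; the functions may be transcendental, for
example `Ω = ℂ` and `𝓜` the field generated by `t`, `Γ(t)`, `ζ(t)`, `exp(exp t)`, `℘(t)`, … and by
countably many constants.  For `t` outside one countable subset of `Ω` the following is true for
all tuples `f_1, …, f_n` of functions of the family such that the numbers `z_i = f_i(t)` satisfy
condition (H) of the conjecture (no `z_i` is in `ℚ z_j + ℚ`, `j ≠ i`).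

* The numbers `Γ(z_i)`, for all `i` such that `f_i` has a pole in `Ω`, are algebraically independent
  over the field generated over `F` by the numbers `g(t)`, `g ∈ 𝓜`, and `Γ(g(t))`, `g ∈ 𝓜` without
  pole in `Ω`; the poles of the functions `f_i` may be at different points.
* So the transcendence degree of `F(z_1, …, z_n, Γ(z_1), …, Γ(z_n))` is the number `n - r` of these
  `i` plus the transcendence degree of `F(z_1, …, z_n)` extended by the `r` other values of `Γ`.
* If the `f_i` are not constant it is at least `n - r + min (r + 1, 3)`: at least `n + 1` if at most
  two of the functions have no pole in `Ω`, and at least `n`, as in the conjecture, if these are three.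
* It is also at least `n + 1`, whatever `r` is, if the values of the functions without pole
  generate a field of transcendence degree at most one (for instance if they are polynomials over
  `F`).

The starting results of this problem on curves (`LineRank`, `LinePole`, `TrdegOne`, `AxLindemann`) are
about lines and algebraic curves; the theorem here is about transcendental curves, of any growth.

Proof.  The starting library contains a local theorem (`Pool.Agent.W175.GF.ltF`, a step in the proof
of `AxLindemann`): the values of `Γ` at functions meromorphic near ONE point, which all have a pole
at this point, are algebraically independent over the field of the germs of meromorphic functions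
(if no two are affinely dependent over `ℚ`).  Here the poles are at different points.  A relation
between the `1/Γ(f_i)` is considered near a pole `p` of one of the functions: the values of `1/Γ` at
the functions without pole at `p` are then coefficients, meromorphic at `p`, so that all the
coefficients of the relation with respect to the values of `1/Γ` at the functions with a pole at `p`
vanish near `p`.  These are functions with isolated, in general essential, singularities in `Ω`,
and an identity theorem for such functions shows that they vanish in `Ω`; this eliminates at
least one function (`func_thm`).  A nonzero function of this class has countably many zeros; this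
gives the statement for numbers.  The lower bounds use in addition the starting theorems on
pairs (`ExceptionalTuples`, case `m = 0`) and on tuples of transcendence degree one (`TrdegAny`, case
`m = 0`), at the values of the functions without pole.
-/

set_option autoImplicit false

open Pool.Agent.K9h76.GM

namespace Pool.Agent.Results.MP_26ad15_nt.MeromorphicCurves

/-- **The Schanuel-type conjecture for `Γ` at the values of a countable family of meromorphic
functions.** `HasPole Ω f`: `f` has a pole in `Ω` (a point of `Ω` at which its order is negative);
`NonConst Ω f`: `f` is not constant on `Ω`; `valueField F Ω 𝓜 t`: the field generated over `F` by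
the `g t`, `g ∈ 𝓜`, and the `Γ(g t)` for the `g ∈ 𝓜` without pole in `Ω`. -/
theorem result (F : Type) [Field F] [Algebra F ℂ] [Countable F] (Ω : Set ℂ) (hΩ : IsOpen Ω)
    (hc : IsPreconnected Ω) (𝓜 : Set (ℂ → ℂ)) (hcount : 𝓜.Countable)
    (h𝓜 : ∀ g ∈ 𝓜, MeromorphicOn g Ω) :
    ∃ S : Set ℂ, S.Countable ∧ ∀ t ∈ Ω, t ∉ S → ∀ (n : ℕ) (f : Fin n → ℂ → ℂ), (∀ i, f i ∈ 𝓜) →
      (∀ i j, i ≠ j → ∀ a b : ℚ, f i t ≠ a * f j t + b) →
      AlgebraicIndependent (valueField F Ω 𝓜 t)
        (fun i : {i // HasPole Ω (f i)} => Complex.Gamma (f i t)) ∧
      (Nat.card {i // HasPole Ω (f i)} : Cardinal) + Algebra.trdeg F (IntermediateField.adjoin F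
          (Set.range (fun i => f i t) ∪
            Set.range fun i : {i // ¬ HasPole Ω (f i)} => Complex.Gamma (f i t))) ≤
        Algebra.trdeg F (IntermediateField.adjoin F
          (Set.range (fun i => f i t) ∪ Set.range fun i => Complex.Gamma (f i t))) ∧
      (1 ≤ n → (∀ i, NonConst Ω (f i)) →
        ((n - Nat.card {i // ¬ HasPole Ω (f i)} +
            min (Nat.card {i // ¬ HasPole Ω (f i)} + 1) 3 : ℕ) : Cardinal) ≤
          Algebra.trdeg F (IntermediateField.adjoin F
            (Set.range (fun i => f i t) ∪ Set.range fun i => Complex.Gamma (f i t))) ∧
        (Algebra.trdeg F (IntermediateField.adjoin F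
            (Set.range fun i : {i // ¬ HasPole Ω (f i)} => f i t)) ≤ 1 →
          ((n + 1 : ℕ) : Cardinal) ≤ Algebra.trdeg F (IntermediateField.adjoin F
            (Set.range (fun i => f i t) ∪ Set.range fun i => Complex.Gamma (f i t))))) :=
  main hΩ hc hcount h𝓜

end Pool.Agent.Results.MP_26ad15_nt.MeromorphicCurves
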